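import Mathlib
import Pool.Agent.X269.FixClosure

set_option autoImplicit false

/-!
# Auto-fixed closures of finitely generated subgroups of `ℤ^m × F_n`

For all `m ≥ 1` and `n ≥ 2` there is a finitely generated subgroup of `ℤ^m × F_n` whose auto-fixed
closure is not finitely generated.  (For `m = 0` or `n ≤ 1` all auto-fixed closures of finitely
generated subgroups are finitely generated.)

With `c = [x₀, x₁]` the subgroup is generated by `c`, all `xᵢ c xᵢ⁻¹` and all `xᵢ² c xᵢ⁻²`.  The only
endomorphism of `F_n` which fixes these elements is the identity, so the auto-fixed closure is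
`1 × [F_n, F_n]`.
-/

namespace Pool.Agent.Results.MP_d3e052_al.AutoClosure

/-- The auto-fixed closure of the subgroup `H` of `G`: the subgroup of all elements which are fixed
by every automorphism of `G` that fixes each element of `H`. -/
def autoFixedClosure {G : Type} [Group G] (H : Subgroup G) : Subgroup G where
  carrier := {g | ∀ φ : G ≃* G, (∀ h ∈ H, φ h = h) → φ g = g}
  mul_mem' := by
    intro a b ha hb φ hφ
    rw [map_mul, ha φ hφ, hb φ hφ]
  one_mem' := fun φ _ => map_one φ
  inv_mem' := by
    intro a ha φ hφ
    rw [map_inv, ha φ hφ]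

/-- For all `m ≥ 1`, `n ≥ 2` there is a finitely generated subgroup of `ℤ^m × F_n` whose auto-fixed
closure is not finitely generated. -/
theorem result (m n : ℕ) (hm : 1 ≤ m) (hn : 2 ≤ n) :
    ∃ H : Subgroup (Multiplicative (Fin m → ℤ) × FreeGroup (Fin n)),
      H.FG ∧ ¬ (autoFixedClosure H).FG := by
  refine ⟨X269.FixClosure.Hsub m hn, X269.FixClosure.Hsub_fg hn, ?_⟩
  apply X269.FixClosure.closure_not_fg hm hn
  · intro w hw φ hφ
    exact X269.FixClosure.fixes hn φ.toMonoidHom hφ w hw
  · intro g hg p
    exact hg (X269.FixClosure.transv p) (X269.FixClosure.transv_fix hn p)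

end Pool.Agent.Results.MP_d3e052_al.AutoClosure
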